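import Mathlib
import Pool.Agent.R178.GT.Defs5
import Pool.Agent.R178.GTX.GLUE
import Pool.Agent.R178.GTX.TR
import Pool.Agent.R178.GTX.EMB
import Pool.Agent.R178.GTX.EMP
import Pool.Agent.R178.GTX.EX2
import Pool.Agent.R178.GTX.EX3
import Pool.Agent.R178.GTX.P5A
import Pool.Agent.R178.GTX.P5B
import Pool.Agent.R178.GTX.P5C
import Pool.Agent.R178.GTX.LINE5
import Pool.Agent.R178.GTX.LEE
import Pool.Agent.R178.GTX.SYM5
import Pool.Agent.R178.GTX.MAIN5

set_option autoImplicit false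

namespace Pool.Agent.Results.MP_dae7ec_co.SymmetricFiveSets

/-- squared Euclidean distance on `ℤ²` -/
def sqDist (p q : ℤ × ℤ) : ℤ := (p.1 - q.1) ^ 2 + (p.2 - q.2) ^ 2

/-- the group of isometries of `ℤ²` with the Euclidean metric: distance-preserving bijections -/
def IsIsometryOfLattice (g : ℤ × ℤ → ℤ × ℤ) : Prop :=
  Function.Bijective g ∧ ∀ p q, sqDist (g p) (g q) = sqDist p q

/-- `S` tiles `ℤ²`: there is a family of isometries `g i` such that the sets `g i (S)` are pairwise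
disjoint and their union is `ℤ²`. -/
def TilesLattice (S : Set (ℤ × ℤ)) : Prop :=
  ∃ (I : Type) (g : I → (ℤ × ℤ → ℤ × ℤ)), (∀ i, IsIsometryOfLattice (g i)) ∧
    (∀ i j, i ≠ j → Disjoint (g i '' S) (g j '' S)) ∧ (⋃ i, g i '' S) = Set.univ

/-- Every centrally symmetric 5-element subset of `ℤ²` tiles `ℤ²` under the group of isometries. -/
theorem result : ∀ S : Finset (ℤ × ℤ), S.card = 5 → (∃ c : ℤ × ℤ, ∀ p ∈ S, c - p ∈ S) →
    TilesLattice (S : Set (ℤ × ℤ)) := by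
  intro S hS hc
  exact R178.GT.t_MAIN5 R178.GT.t_GLUE R178.GT.t_TR
    (R178.GT.t_SYM5 R178.GT.t_EMB R178.GT.t_EMP R178.GT.t_LEE
      (R178.GT.t_LINE5 R178.GT.t_EMB (R178.GT.t_P5A R178.GT.t_EX2) (R178.GT.t_P5B R178.GT.t_EX3)
        R178.GT.t_P5C)) S hS hc

end Pool.Agent.Results.MP_dae7ec_co.SymmetricFiveSets
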